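import Pool.Agent.MP_c69980_ag.H4.SpecC
import Pool.Agent.MP_c69980_ag.H66.Alg

/-!
Critical points of multivalued maps, and uniform bounds for discs.
-/

set_option autoImplicit false

namespace Pool.Agent.MP_c69980_ag.H20

open MvPolynomial Metric Filter Topology Set Real
open H60 H4 H4.R1

variable {n : ℕ}

/-- The density does not change when the lift is multiplied by a function. -/
lemma lam_of_smul {F G : ℂ → Fin n → ℂ} {φ : ℂ → ℂ} {c : ℂ} {G' : Fin n → ℂ}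
    (hφ : DifferentiableAt ℂ φ c) (hG : HasDerivAt G G' c) (h0 : F c ≠ 0)
    (h : F =ᶠ[𝓝 c] fun z => φ z • G z) : lam F c = lamv (G c) G' := by
  have e0 : F c = φ c • G c := h.eq_of_nhds
  have p0 : φ c ≠ 0 := fun e => h0 (by rw [e0, e, zero_smul])
  have g0 : G c ≠ 0 := fun e => h0 (by rw [e0, e, smul_zero])
  have e1 : deriv F c = φ c • G' + deriv φ c • G c := by
    rw [h.deriv_eq]
    exact (hφ.hasDerivAt.smul hG).deriv
  rw [lam, e0, e1]
  exact (minor n (G c) G' g0).2.2.2.1 _ _ p0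

lemma lam_le {F : ℂ → Fin n → ℂ} {c : ℂ} {j : Fin n} (hF : DifferentiableAt ℂ F c)
    (hj : F c j ≠ 0) : lam F c ≤ n * ‖deriv (fun s => nrm j (F s)) c‖ ^ 2 := by
  have hj' : DifferentiableAt ℂ (fun s => F s j) c := differentiableAt_pi.1 hF j
  have h0 : F c ≠ 0 := fun e => hj (by rw [e]; rfl)
  have e := lam_of_smul (F := F) (φ := fun s => F s j) hj' (nrm_diff hF hj).hasDerivAt h0 (by
    filter_upwards [hj'.continuousAt.eventually_ne hj] with s hs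
    rw [nrm, smul_inv_smul₀ hs])
  have n1 : nrm j (F c) j = 1 := inv_mul_cancel₀ hj
  have n0 : nrm j (F c) ≠ 0 := fun e => by rw [e] at n1; exact zero_ne_one n1
  have n2 : 1 ≤ H4.sq (nrm j (F c)) := by
    refine le_trans ?_ (norm_sq_le _)
    have := norm_le_pi_norm (nrm j (F c)) j
    rw [n1, norm_one] at this
    exact one_le_pow₀ this
  rw [e]
  refine (minor n _ _ n0).2.2.1.trans ((div_le_self (sq_nn _) n2).trans ?_)
  rcases eq_or_ne (deriv (fun s => nrm j (F s)) c) 0 with e | e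
  · simp [e, H4.sq]
  · exact (minor n _ 0 e).2.2.2.2.2.1

theorem unif : UnifStmt := by
  intro n U j H A e a b hH hA hG hb
  have hP : (H * X j * A).IsHomogeneous (e + 1 + a) := (hH.mul (isHomogeneous_X ℂ j)).mul hA
  obtain ⟨C, C0, hC⟩ := hom_bd hH
  obtain ⟨C', C0', hC'⟩ := hom_bd hA
  let K : Set (Fin n → ℂ) := {p | p j = 1 ∧ b * ‖p‖ ^ (e + 1 + a) ≤ ‖eval p (H * X j * A)‖}
  have K1 : ∀ p ∈ K, 0 < ‖p‖ := fun p hp => by
    have := norm_le_pi_norm p j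
    rw [hp.1, norm_one] at this
    linarith
  have hK : IsCompact K := by
    refine isCompact_of_isClosed_isBounded ((isClosed_eq (by fun_prop) continuous_const).inter
      (isClosed_le (by fun_prop) (MvPolynomial.continuous_eval _).norm))
      ((isBounded_closedBall (x := 0) (r := C * C' / b)).subset fun p hp => ?_)
    have h1 := hp.2
    have h2 := K1 p hp
    rw [map_mul, map_mul, eval_X, hp.1, mul_one, norm_mul] at h1
    have h3 := h1.trans (mul_le_mul (hC p) (hC' p) (norm_nonneg _) (by positivity))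
    rw [mem_closedBall_zero_iff, le_div_iff₀ hb]
    refine le_of_mul_le_mul_right ?_ (pow_pos h2 (e + a))
    calc ‖p‖ * b * ‖p‖ ^ (e + a) = b * ‖p‖ ^ (e + 1 + a) := by ring
      _ ≤ _ := h3
      _ = _ := by ring
  have key : ∃ M : ℝ, ∀ c R x, 0 < R → Dk U c R x → x c j = 1 → x c ∈ K →
      R * ‖deriv (fun s => nrm j (x s)) c‖ ≤ M := by
    refine hK.induction_on (p := fun S => ∃ M : ℝ, ∀ c R x, 0 < R → Dk U c R x → x c j = 1 →
      x c ∈ S → R * ‖deriv (fun s => nrm j (x s)) c‖ ≤ M) ⟨0, fun _ _ _ _ _ _ h => h.elim⟩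
      (fun s t hst ⟨M, hM⟩ => ⟨M, fun c R x h1 h2 h3 h4 => hM c R x h1 h2 h3 (hst h4)⟩)
      (fun s t ⟨M, hM⟩ ⟨M', hM'⟩ => ⟨max M M', fun c R x h1 h2 h3 h4 => h4.elim
        (fun h => (hM c R x h1 h2 h3 h).trans (le_max_left _ _))
        (fun h => (hM' c R x h1 h2 h3 h).trans (le_max_right _ _))⟩) fun p hp => ?_
    obtain ⟨ε, M, ε0, hM⟩ := hG p fun h0 => by
      have h1 := hp.2
      have h2 := K1 p hp
      rw [map_mul, map_mul, h0, zero_mul, zero_mul, norm_zero] at h1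
      exact absurd h1 (not_le.2 (by positivity))
    exact ⟨ball p ε, mem_nhdsWithin_of_mem_nhds (ball_mem_nhds p ε0),
      M, fun c R x h1 h2 h3 h4 => hM c R x h1 h2 h3 (mem_ball_iff_norm.1 h4)⟩
  obtain ⟨M, hM⟩ := key
  refine ⟨n * M ^ 2 + 1, by positivity, fun F hF z hz hb' => ?_⟩
  have z1 : 0 < 1 - ‖z‖ := sub_pos.2 (mem_ball_zero_iff.1 hz)
  have F0 : 0 < ‖F z‖ := norm_pos_iff.2 (hF.2 z hz).1
  have Fj : F z j ≠ 0 := fun h0 => by
    rw [map_mul, map_mul, eval_X, h0, mul_zero, zero_mul, norm_zero] at hb'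
    exact absurd hb' (not_le.2 (by positivity))
  have sub : ball z (1 - ‖z‖) ⊆ ball 0 1 := ball_subset_ball' (by simp)
  have h1 := hM z (1 - ‖z‖) (fun s => (F z j)⁻¹ • F s) z1
    ⟨(hF.1.mono sub).fun_const_smul _, fun s hs => Cone.smul (hF.2 s (sub hs)) (inv_ne_zero Fj)⟩
    (inv_mul_cancel₀ Fj) ⟨inv_mul_cancel₀ Fj, by
      rw [eval_smul_hom hP, norm_smul, mul_pow, norm_mul, norm_pow, mul_left_comm]
      exact mul_le_mul_of_nonneg_left hb' (by positivity)⟩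
  simp only [nrm_smul j (inv_ne_zero Fj)] at h1
  refine (lam_le (hF.1.differentiableAt (isOpen_ball.mem_nhds hz)) Fj).trans ?_
  rw [le_div_iff₀ (by positivity), mul_assoc, ← mul_pow, mul_comm _ (1 - ‖z‖)]
  have := pow_le_pow_left₀ (by positivity) h1 2
  have := mul_le_mul_of_nonneg_left this (Nat.cast_nonneg (α := ℝ) n)
  linarith

lemma ev_off (t₀ : ℂ) {ε : ℂ} (hε : ε ≠ 0) {T : Set ℂ} (hT : T.Finite) :
    ∀ᶠ z in 𝓝[≠] (0 : ℂ), t₀ + ε * z ∉ T := by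
  have h1 : ((fun z => t₀ + ε * z) ⁻¹' T \ {0}).Finite :=
    (hT.preimage fun a _ b _ h => mul_left_cancel₀ hε (add_left_cancel h)).subset sdiff_subset
  have h2 : ((fun z => t₀ + ε * z) ⁻¹' T \ {0})ᶜ ∈ 𝓝 (0 : ℂ) :=
    h1.isClosed.isOpen_compl.mem_nhds fun h => h.2 rfl
  filter_upwards [mem_nhdsWithin_of_mem_nhds h2, self_mem_nhdsWithin] with z h3 h4 h5
  exact h3 ⟨h5, h4⟩

/-- A curve whose density vanishes frequently is locally constant. -/
lemma const_of_lam {G : ℂ → Fin n → ℂ} (hG : Crv (ball 0 1) G)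
    (h : ∃ᶠ z in 𝓝[≠] (0 : ℂ), lam G z ≤ 0) : ∀ᶠ z in 𝓝 (0 : ℂ), ∃ t : ℂ, t • G z = G 0 := by
  have m0 : (0 : ℂ) ∈ ball (0 : ℂ) 1 := mem_ball_self one_pos
  have b0 : ball (0 : ℂ) 1 ∈ 𝓝 (0 : ℂ) := isOpen_ball.mem_nhds m0
  have an : AnalyticAt ℂ G 0 := hG.1.analyticAt b0
  obtain ⟨j, hj⟩ := Function.ne_iff.1 (hG.2 0 m0)
  have c1 : ∀ i, AnalyticAt ℂ (fun z => G z i) 0 := analyticAt_pi_iff.1 an
  have c2 : ∀ i, AnalyticAt ℂ (fun z => deriv G z i) 0 := analyticAt_pi_iff.1 an.deriv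
  have h1 : ∀ i, ∀ᶠ z in 𝓝 (0 : ℂ), deriv G z i * G z j - G z i * deriv G z j = 0 := fun i => by
    refine (((c2 i).mul (c1 j)).sub ((c1 i).mul (c2 j))).frequently_zero_iff_eventually_zero.1 ?_
    refine h.mp (Eventually.mono (mem_nhdsWithin_of_mem_nhds b0) fun z hz h2 => ?_)
    have h3 := (minor n (G z) (deriv G z) (hG.2 z hz)).1 i j
    have h4 : lamv (G z) (deriv G z) * H4.sq (G z) ^ 2 ≤ 0 :=
      mul_nonpos_of_nonpos_of_nonneg h2 (by positivity)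
    exact norm_eq_zero.1 (pow_eq_zero_iff two_ne_zero |>.1 (le_antisymm (h3.trans h4)
      (by positivity)))
  obtain ⟨r, r0, hr⟩ := Metric.eventually_nhds_iff_ball.1 ((eventually_all.2 h1).and
    (((c1 j).continuousAt.eventually_ne hj).and b0))
  have d1 : ∀ z ∈ ball (0 : ℂ) r, ∀ i, HasDerivAt (fun s => G s i) (deriv G z i) z :=
    fun z hz => hasDerivAt_pi.1
      (hG.1.differentiableAt (isOpen_ball.mem_nhds (hr z hz).2.2)).hasDerivAt
  have d2 : ∀ z ∈ ball (0 : ℂ) r, ∀ i, HasDerivAt (fun s => G s i / G s j) 0 z := fun z hz i => by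
    have := (d1 z hz i).fun_div (d1 z hz j) (hr z hz).2.1
    rwa [(hr z hz).1 i, zero_div] at this
  filter_upwards [ball_mem_nhds (0 : ℂ) r0] with z hz
  refine ⟨G 0 j / G z j, funext fun i => ?_⟩
  have := isOpen_ball.is_const_of_deriv_eq_zero (convex_ball (0 : ℂ) r).isPreconnected
    (f := fun s => G s i / G s j) (fun s hs => (d2 s hs i).differentiableAt.differentiableWithinAt)
    (fun s hs => (d2 s hs i).deriv) hz (mem_ball_self r0)
  have hz' := (hr z hz).2.1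
  have hj' : G 0 j ≠ 0 := hj
  rw [div_eq_div_iff hz' hj'] at this
  rw [Pi.smul_apply, smul_eq_mul, div_mul_eq_mul_div, div_eq_iff hz']
  linear_combination this

/-- Two curves that agree frequently differ by a holomorphic factor. -/
lemma factor_of_freq {F G : ℂ → Fin n → ℂ} (hF : AnalyticAt ℂ F 0) (hG : AnalyticAt ℂ G 0)
    (h0 : G 0 ≠ 0) (h : ∃ᶠ z in 𝓝[≠] (0 : ℂ), ∃ t : ℂ, t • G z = F z) :
    ∃ φ : ℂ → ℂ, DifferentiableAt ℂ φ 0 ∧ F =ᶠ[𝓝 0] fun z => φ z • G z := by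
  obtain ⟨j, hj⟩ := Function.ne_iff.1 h0
  have c1 : ∀ i, AnalyticAt ℂ (fun z => F z i) 0 := analyticAt_pi_iff.1 hF
  have c2 : ∀ i, AnalyticAt ℂ (fun z => G z i) 0 := analyticAt_pi_iff.1 hG
  have h1 : ∀ i, ∀ᶠ z in 𝓝 (0 : ℂ), F z i * G z j - F z j * G z i = 0 := fun i => by
    refine (((c1 i).mul (c2 j)).sub ((c1 j).mul (c2 i))).frequently_zero_iff_eventually_zero.1 ?_
    refine h.mono fun z ⟨t, ht⟩ => ?_
    simp only [Pi.sub_apply, Pi.mul_apply, ← ht, Pi.smul_apply, smul_eq_mul]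
    ring
  refine ⟨fun z => F z j / G z j, (c1 j).differentiableAt.div (c2 j).differentiableAt hj, ?_⟩
  filter_upwards [eventually_all.2 h1, (c2 j).continuousAt.eventually_ne hj] with z h2 h3
  refine funext fun i => ?_
  have h4 : G z j ≠ 0 := h3
  rw [Pi.smul_apply, smul_eq_mul, div_mul_eq_mul_div, eq_div_iff h4]
  linear_combination h2 i

theorem crit : CritStmt := by
  intro n δ S Y E hS hY hE
  obtain ⟨t₀, ht₀⟩ := S.finite_toSet.infinite_compl.nonempty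
  obtain ⟨η, η0, hη⟩ := Metric.isOpen_iff.1 S.finite_toSet.isClosed.isOpen_compl t₀ ht₀
  obtain ⟨ε, ε0, hε⟩ : ∃ ε : ℝ, 0 < ε ∧ ε * 2 = η := ⟨η / 2, by positivity, by ring⟩
  have ε1 : (ε : ℂ) ≠ 0 := by exact_mod_cast ε0.ne'
  have av : ∀ z ∈ ball (0 : ℂ) 2, t₀ + ε * z ∉ S := fun z hz => hη (by
    rw [mem_ball_iff_norm, add_sub_cancel_left, norm_mul, Complex.norm_real,
      Real.norm_of_nonneg ε0.le, ← hε]
    exact mul_lt_mul_of_pos_left (mem_ball_zero_iff.1 hz) ε0)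
  obtain ⟨G, hG, hGY⟩ := hS (fun z => t₀ + ε * z) 2 one_lt_two (by fun_prop) av
  have m0 : (0 : ℂ) ∈ ball (0 : ℂ) 1 := mem_ball_self one_pos
  have b0 : ball (0 : ℂ) 1 ∈ 𝓝 (0 : ℂ) := isOpen_ball.mem_nhds m0
  have h1 : ∀ i, ∀ᶠ z in 𝓝[≠] (0 : ℂ), 0 < lam (G i) z := fun i => by
    by_contra hc
    have h2 := const_of_lam (hG i) ((not_eventually.1 hc).mono fun z hz => not_lt.1 hz)
    obtain ⟨z, ⟨⟨t, ht⟩, hz⟩, h3⟩ := (((h2.and b0).filter_mono nhdsWithin_le_nhds).and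
      (ev_off t₀ ε1 (hY (Projectivization.mk ℂ (G i 0) ((hG i).2 0 m0))))).exists
    exact h3 ((hGY z hz _).2 ⟨i, (hG i).2 z hz, (Projectivization.mk_eq_mk_iff' ℂ _ _ _ _).2 ⟨t, ht⟩⟩)
  obtain ⟨z₀, ⟨h2, h3⟩, hz₀⟩ := (((eventually_all.2 h1).and (ev_off t₀ ε1 hE)).and
    (mem_nhdsWithin_of_mem_nhds b0)).exists
  obtain ⟨b, hb, b1⟩ := ((eventually_all.2 fun i =>
    (eventually_le_nhds (h2 i)).filter_mono (nhdsWithin_le_nhds (s := Ioi 0))).and
      self_mem_nhdsWithin).exists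
  have b2 : 0 < b := b1
  refine ⟨t₀ + ε * z₀, h3, av z₀ (ball_subset_ball one_le_two hz₀), ?_, b / ε ^ 2, by positivity,
    fun ψ F hψ e0 hF i => ?_⟩
  · refine (finite_range fun i => Projectivization.mk ℂ (G i z₀) ((hG i).2 z₀ hz₀)).subset
      fun y hy => ?_
    obtain ⟨i, h, rfl⟩ := (hGY z₀ hz₀ y).1 hy
    exact ⟨i, rfl⟩
  let w : ℂ → ℂ := fun z => (ψ z - t₀) / ε
  have w0 : w 0 = z₀ := by simp only [w, e0]; field_simp; ring
  have w1 : ∀ z, t₀ + ε * w z = ψ z := fun z => by simp only [w]; field_simp; ring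
  have aψ : AnalyticAt ℂ ψ 0 := hψ.analyticAt b0
  have wa : AnalyticAt ℂ w 0 := (aψ.sub analyticAt_const).div analyticAt_const ε1
  have wd : HasDerivAt w (deriv ψ 0 / ε) 0 :=
    (aψ.differentiableAt.hasDerivAt.sub_const t₀).div_const _
  have wb : ∀ᶠ z in 𝓝 (0 : ℂ), w z ∈ ball (0 : ℂ) 1 :=
    wa.continuousAt.preimage_mem_nhds (isOpen_ball.mem_nhds (w0 ▸ hz₀))
  have h4 : ∀ᶠ z in 𝓝[≠] (0 : ℂ), ∃ i', ∃ t : ℂ, t • G i' (w z) = F i z := by
    filter_upwards [mem_nhdsWithin_of_mem_nhds wb, mem_nhdsWithin_of_mem_nhds b0] with z h5 h6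
    have h7 := (hF.2 z h6 _).2 ⟨i, (hF.1 i).2 z h6, rfl⟩
    rw [← w1] at h7
    obtain ⟨i', h, h8⟩ := (hGY (w z) h5 _).1 h7
    exact ⟨i', (Projectivization.mk_eq_mk_iff' ℂ _ _ _ _).1 h8⟩
  obtain ⟨i', h5⟩ := frequently_exists.1 h4.frequently
  have aG : AnalyticAt ℂ (G i') (w 0) := (hG i').1.analyticAt (isOpen_ball.mem_nhds (w0 ▸ hz₀))
  obtain ⟨φ, hφ, h6⟩ := factor_of_freq (G := fun z => G i' (w z)) ((hF.1 i).1.analyticAt b0)
    (aG.comp wa) ((hG i').2 _ (w0 ▸ hz₀)) h5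
  have h7 := lam_of_smul hφ (aG.differentiableAt.hasDerivAt.scomp 0 wd) ((hF.1 i).2 0 m0) h6
  rw [h7, lamv_smul, Function.comp_apply, w0, norm_div, Complex.norm_real,
    Real.norm_of_nonneg ε0.le, div_pow, div_mul_eq_mul_div, div_mul_eq_mul_div, mul_comm]
  exact div_le_div_of_nonneg_right (mul_le_mul_of_nonneg_left (hb i') (by positivity))
    (by positivity)

end Pool.Agent.MP_c69980_ag.H20
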